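import Pool.Agent.Helper234.Nuc.Q
import Pool.Agent.Helper234.Nuc.Univ

set_option autoImplicit false
open Cardinal
open Pool.Agent.Helper234.Nuc

namespace Pool.Agent.Results.MP_162c54_lc.NoUniversalNuclear

universe u

/-- Necessary cardinal arithmetic for the existence of a universal nuclear C*-algebra of density
character `κ`. -/
theorem result (κ : Cardinal.{u}) (hκ : ℵ₀ ≤ κ) (h : HasUniversalNuclear κ) :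
    κ < κ ^ ℵ₀ ∧
    (∀ θ : Cardinal.{u}, ℵ₀ ≤ θ → κ ≠ 2 ^ θ) ∧
    (∀ μ lam : Cardinal.{u}, ℵ₀ ≤ μ → μ ≤ κ → lam ≤ κ → lam ≤ μ ^ ℵ₀ → 2 ^ lam ≤ κ ^ μ) ∧
    (ℵ₀ < κ.ord.cof → ∃ ν : Cardinal.{u}, ℵ₀ ≤ ν ∧ ν < κ ∧ κ < ν ^ ℵ₀ ∧ 2 ^ κ = κ ^ ν) ∧
    (∀ μ : Cardinal.{u}, ℵ₀ ≤ μ → κ = Order.succ μ → κ < μ ^ ℵ₀ ∧ 2 ^ κ = (2 : Cardinal.{u}) ^ μ) ∧
    ((∀ ν : Cardinal.{u}, ℵ₀ ≤ ν → 2 ^ ν = Order.succ ν) → κ.ord.cof = ℵ₀) := by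
  obtain ⟨U, i, hU, hdens, -, huniv⟩ := h
  exact ⟨lt_pow_aleph0 hκ hU hdens huniv, ne_two_pow hκ hU hdens huniv,
    fun μ lam h1 h2 h3 h4 => two_pow_le h1 h2 h3 h4 hU hdens huniv,
    cof_case hκ hU hdens huniv,
    fun μ h1 h2 => succ_case h1 h2 hU hdens huniv,
    gch_case hκ hU hdens huniv⟩

end Pool.Agent.Results.MP_162c54_lc.NoUniversalNuclear
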